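import Pool.Agent.N794.CG.Pairs
import Pool.Agent.R459.Bsd4

/-!
# The primes with a prescribed Fourier coefficient `a_p = r`, for almost all curves with both coefficients in automatic sets

From Mathlib: `DFA ℕ σ`: finite automata (for `[Fintype σ]`) which read words of natural numbers; `Nat.digits b v`: the
digits of `v` in base `b`, the least significant digit first.

By the modularity theorem and the theory of new forms (not used here) these curves are those of the forms of the question, and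
`a_p(E)` is the Fourier coefficient. By the class number formula of Deuring `model r x` is, up to bounded factors of the terms,
the sum of `H(4 p - r²) / (2 p)` over the primes `p ≤ x`, where `H` is the class number of Hurwitz; so this is the count
predicted by Lang and Trotter on average over all curves, of order `x ^ (1 / 2) / log x`.

Method: the random member of an automatic set of more than polylogarithmic size is dominated, up to a power of the
logarithm, by a random integer whose characteristic function decays (starting library, `Pool.Agent.H491R4.AF`); the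
passage from there to sums over primes of functions of residues, for almost all members, is from the starting library
(`Pool.Agent.R459.Eq`).
-/

set_option autoImplicit false

namespace Pool.Agent.Results.MP_631487_nt.AutomaticPairs

open Finset Filter Pool.Agent.R459.Eq Pool.Agent.N794.CG
open Pool.Agent.W263.BSD (GoodPrime pointCount)

open Classical in
/-- The integers `0 ≤ v < N` whose digits in base `b` (the least significant digit first) are accepted by the automaton
`M`. -/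
noncomputable def members {σ : Type} (b : ℕ) (M : DFA ℕ σ) (N : ℕ) : Finset ℕ :=
  (range N).filter (fun v => Nat.digits b v ∈ M.accepts)

/-- `p` is a prime of good reduction of the curve `E : y² = x³ + a x + n` (a prime which does not divide the discriminant
`-16 (4 a³ + 27 n²)`) and `a_p(E) = p - N_p = r`, where `N_p` is the number of the affine points modulo `p`. -/
def Trace (r : ℤ) (p : ℕ) (a n : ℤ) : Prop := GoodPrime a n p ∧ (p : ℤ) - pointCount a n p = r

open Classical in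
/-- The number `π_E(x, r)` of the primes `p ≤ x` of good reduction of `E : y² = x³ + a x + n` with `a_p(E) = r`. -/
noncomputable def piE (a n r : ℤ) (x : ℕ) : ℕ := ((range (x + 1)).filter (fun p => Trace r p a n)).card

open Classical in
/-- The sum over the primes `p ≤ x` of the proportion of the pairs `(α, ν)` of residues modulo `p` for which `p` is a prime of
good reduction of `y² = x³ + α x + ν` with trace `r`. -/
noncomputable def model (r : ℤ) (x : ℕ) : ℝ :=
  ∑ p ∈ (range (x + 1)).filter Nat.Prime,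
    (((range p ×ˢ range p).filter (fun z : ℕ × ℕ => Trace r p z.1 z.2)).card : ℝ) / (p : ℝ) ^ 2

/-- For all integers `|r| ≤ x ^ (δ / 4)` the number of the primes `p ≤ x` of good reduction of `E : y² = x³ + a x + n` with
`a_p(E) = r` differs from `model r x` by at most `3 x ^ δ` times the square root of `model r (4 x)` (or of `1`). -/
def Good (δ : ℝ) (x : ℕ) (a n : ℤ) : Prop := ∀ r : ℤ, |(r : ℝ)| ≤ (x : ℝ) ^ (δ / 4) →
  |(piE a n r x : ℝ) - model r x| ≤ 3 * √(max 1 (model r (4 * x))) * (x : ℝ) ^ δ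

lemma piE_eq (a n r : ℤ) (x : ℕ) : piE a n r x = cntR (Trace r) a n x := by
  classical
  unfold piE cntR
  congr 1
  ext p
  simp only [mem_filter, mem_range, mem_pri]
  constructor
  · rintro ⟨h1, h2⟩
    exact ⟨⟨by omega, h2.1.1⟩, h2⟩
  · rintro ⟨h1, h2⟩
    exact ⟨by omega, h2⟩

lemma model_eq (r : ℤ) (x : ℕ) : model r x = ∑ p ∈ pri x, dens2 (Trace r) p := by
  classical
  have e : (range (x + 1)).filter Nat.Prime = pri x := by
    unfold pri
    congr!
  unfold model dens2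
  rw [e]

lemma trace_per (r : ℤ) (p : ℕ) (_ : p.Prime) (a a' n n' : ℤ) (h : (p : ℤ) ∣ a - a') (h' : (p : ℤ) ∣ n - n') :
    Trace r p a n ↔ Trace r p a' n' := by
  have e1 : ((a : ℤ) : ZMod p) = ((a' : ℤ) : ZMod p) := by
    rw [← sub_eq_zero, ← Int.cast_sub, ZMod.intCast_zmod_eq_zero_iff_dvd]
    exact h
  have e2 : ((n : ℤ) : ZMod p) = ((n' : ℤ) : ZMod p) := by
    rw [← sub_eq_zero, ← Int.cast_sub, ZMod.intCast_zmod_eq_zero_iff_dvd]
    exact h'
  have h1 : GoodPrime a n p ↔ GoodPrime a' n' p := by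
    unfold GoodPrime
    rw [← ZMod.intCast_zmod_eq_zero_iff_dvd, ← ZMod.intCast_zmod_eq_zero_iff_dvd]
    push_cast
    rw [e1, e2]
  have h2 : pointCount a n p = pointCount a' n' p := by
    unfold pointCount
    rw [e1, e2]
  unfold Trace
  rw [h1, h2]

lemma trace_uniq (p : ℕ) (a n r r' : ℤ) (h : Trace r p a n) (h' : Trace r' p a n) : r = r' := by
  rw [← h.2, ← h'.2]

/-- a curve which is not good -/
lemma bad_of {δ : ℝ} {x : ℕ} {a n : ℤ} (h : ¬ Good δ x a n) : ∃ r : ℤ, |(r : ℝ)| ≤ (x : ℝ) ^ (δ / 2 / 2) ∧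
    3 * √(max 1 (∑ p ∈ pri (4 * x), dens2 (Trace r) p)) * (x : ℝ) ^ (2 * (δ / 2)) <
      |(cntR (Trace r) a n x : ℝ) - ∑ p ∈ pri x, dens2 (Trace r) p| := by
  unfold Good at h
  push Not at h
  obtain ⟨r, h1, h2⟩ := h
  have e1 : δ / 2 / 2 = δ / 4 := by ring
  have e2 : 2 * (δ / 2) = δ := by ring
  refine ⟨r, by rw [e1]; exact h1, ?_⟩
  rw [e2, ← model_eq, ← model_eq, ← piE_eq]
  exact h2

/-- the change of the range -/
lemma range_two {x W N : ℕ} (hx : 2 ≤ x) (h : x ^ (2 * W) ≤ N) : x ^ W ≤ N ∧ (2 * x) ^ W ≤ N := by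
  have h1 : (2 * x) ^ W ≤ x ^ (2 * W) := by
    rw [pow_mul]
    exact Nat.pow_le_pow_left (by nlinarith) W
  have h2 : x ^ W ≤ (2 * x) ^ W := Nat.pow_le_pow_left (by omega) W
  exact ⟨h2.trans (h1.trans h), h1.trans h⟩

open Classical in
/-- Let `A₁`, `A₂` be finite automata which accept the digits, in bases `b₁, b₂ ≥ 2`, of more than polylogarithmically many
integers: for every `k` there are infinitely many `N` such that more than `(log N) ^ k` integers `v < N` are accepted (this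
excludes only sparse sets; the number of the accepted `v < N` may be `N ^ c` with arbitrarily small `c > 0`). Let
`0 < δ ≤ 1`. There are `W`, `e₁`, `e₂` such that for `κ₁, κ₂ ≠ 0` and all sufficiently large `X` the following holds for all
`N₁`, `N₂`, `c₁`, `c₂`.

For almost all the pairs `(u, v)` of accepted `u < N₁` and `v < N₂`, up to a proportion of at most
`4 ((log N₁) ^ e₁ + (log N₂) ^ e₂) X ^ (- δ / 4)`, the curve `E : y² = x³ + a x + n` with `a = c₁ + κ₁ u` and `n = c₂ + κ₂ v` has the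
following property for ALL `x ≥ X` with `x ^ W ≤ N₁` and `x ^ W ≤ N₂` and ALL integers `|r| ≤ x ^ (δ / 4)`: the number `π_E(x, r)`
of the primes `p ≤ x` with `a_p(E) = r` is `M(x)` up to an error of at most `3 x ^ δ (max 1 M(4 x)) ^ (1 / 2)`, where `M(x)` is
the sum over `p ≤ x` of the proportion of the pairs of residues modulo `p` for which the curve has the trace `r`. -/
theorem result {σ₁ σ₂ : Type} [Fintype σ₁] [Fintype σ₂] (b₁ b₂ : ℕ) (hb₁ : 2 ≤ b₁) (hb₂ : 2 ≤ b₂) (A₁ : DFA ℕ σ₁) (A₂ : DFA ℕ σ₂)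
    (hS₁ : ∀ k : ℕ, ∃ᶠ N : ℕ in atTop, Real.log N ^ k < ((members b₁ A₁ N).card : ℝ))
    (hS₂ : ∀ k : ℕ, ∃ᶠ N : ℕ in atTop, Real.log N ^ k < ((members b₂ A₂ N).card : ℝ))
    (δ : ℝ) (hδ : 0 < δ) (hδ1 : δ ≤ 1) : ∃ W e₁ e₂ : ℕ, 1 ≤ W ∧ ∀ κ₁ κ₂ : ℤ, κ₁ ≠ 0 → κ₂ ≠ 0 → ∃ X₀ : ℕ, ∀ X : ℕ, X₀ ≤ X →
    ∀ (N₁ N₂ : ℕ) (c₁ c₂ : ℤ),
    (((members b₁ A₁ N₁ ×ˢ members b₂ A₂ N₂).filter (fun z : ℕ × ℕ => ¬ ∀ x : ℕ, X ≤ x → x ^ W ≤ N₁ → x ^ W ≤ N₂ →
      Good δ x (c₁ + κ₁ * z.1) (c₂ + κ₂ * z.2))).card : ℝ) ≤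
      4 * ((Real.log N₁ ^ e₁ + Real.log N₂ ^ e₂) * (X : ℝ) ^ (-(δ / 4))) *
        (((members b₁ A₁ N₁).card : ℝ) * (members b₂ A₂ N₂).card) := by
  classical
  obtain ⟨W₁, e₁, hW₁, H₁⟩ := fineAt_aut (δ / 2) (by linarith) (by linarith) b₁ hb₁ A₁ hS₁
  obtain ⟨W₂, e₂, hW₂, H₂⟩ := fineAt_aut (δ / 2) (by linarith) (by linarith) b₂ hb₂ A₂ hS₂
  refine ⟨2 * (W₁ + W₂), e₁, e₂, by omega, fun κ₁ κ₂ hκ₁ hκ₂ => ?_⟩
  obtain ⟨X₁, J₁⟩ := H₁ κ₁ hκ₁
  obtain ⟨X₂, J₂⟩ := H₂ κ₂ hκ₂
  refine ⟨X₁ + X₂ + 2, fun X hX N₁ N₂ c₁ c₂ => ?_⟩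
  have hlog : ∀ N : ℕ, 0 ≤ Real.log N := fun N => Real.log_natCast_nonneg N
  have hone : ∀ Ω : Finset ℕ, ∑ _i ∈ Ω, 1 / (Ω.card : ℝ) ≤ 1 := by
    intro Ω
    rw [sum_const, nsmul_eq_mul, mul_one_div]
    exact div_self_le_one _
  have h1 := pairs_card (members b₁ A₁ N₁) (members b₂ A₂ N₂) _ (filter_subset _ _) _
    (pairs_trace (Ω₁ := members b₁ A₁ N₁) (Ω₂ := members b₂ A₂ N₂)
      (w₁ := fun _ => 1 / ((members b₁ A₁ N₁).card : ℝ)) (w₂ := fun _ => 1 / ((members b₂ A₂ N₂).card : ℝ))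
      (fun _ _ => by positivity) (fun _ _ => by positivity) (hone _) (hone _) (by linarith : 0 < δ / 2) (by linarith)
      (by omega : 1 ≤ X) (by have := hlog N₂; positivity) (J₁ X (by omega) N₁ c₁) (J₂ X (by omega) N₂ c₂)
      Trace trace_per trace_uniq
      ((members b₁ A₁ N₁ ×ˢ members b₂ A₂ N₂).filter (fun z : ℕ × ℕ => ¬ ∀ x : ℕ, X ≤ x → x ^ (2 * (W₁ + W₂)) ≤ N₁ →
        x ^ (2 * (W₁ + W₂)) ≤ N₂ → Good δ x (c₁ + κ₁ * z.1) (c₂ + κ₂ * z.2))) (filter_subset _ _) (by
        intro z hz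
        have h2 := (mem_filter.1 hz).2
        push Not at h2
        obtain ⟨x, hXx, h3, h4, h5⟩ := h2
        have hx2 : 2 ≤ x := by omega
        have hle1 : x ^ (2 * W₁) ≤ x ^ (2 * (W₁ + W₂)) := Nat.pow_le_pow_right (by omega) (by omega)
        have hle2 : x ^ (2 * W₂) ≤ x ^ (2 * (W₁ + W₂)) := Nat.pow_le_pow_right (by omega) (by omega)
        exact ⟨x, hXx, (range_two hx2 (hle1.trans h3)).1, (range_two hx2 (hle1.trans h3)).2,
          (range_two hx2 (hle2.trans h4)).1, bad_of h5⟩))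
  refine h1.trans (le_of_eq ?_)
  have e : δ / 2 / 2 = δ / 4 := by ring
  rw [e]
  ring

end Pool.Agent.Results.MP_631487_nt.AutomaticPairs
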