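import Pool.Agent.N794.CG.Pairs
import Pool.Agent.R459.Bsd4

/-!
# The primes with a prescribed Fourier coefficient `a_p = r`, for random curves whose coefficients are random integers
with exchangeable blocks of digits

By the modularity theorem and the theory of new forms (not used here) these curves are those of the forms of the question, and
`a_p(E)` is the Fourier coefficient. By the class number formula of Deuring `model r x` is, up to bounded factors of the terms,
the sum of `H(4 p - r²) / (2 p)` over the primes `p ≤ x`, where `H` is the class number of Hurwitz; so this is the count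
predicted by Lang and Trotter on average over all curves, of order `x ^ (1 / 2) / log x`.

Method: if blocks of digits can be exchanged then the exponential sums are exponentially small in the number of the
places at which the frequency is not close to a rational number with a small denominator (helper625,
`Pool.Agent.N625.PT`); a mixture with the uniform distribution has the decay which is needed for the passage to sums over
primes of functions of residues, which is from the starting library (`Pool.Agent.R459.Eq`).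
-/

set_option autoImplicit false

namespace Pool.Agent.Results.MP_631487_nt.ExchangeablePairs

open Finset Filter Pool.Agent.R459.Eq Pool.Agent.N794.CG
open Pool.Agent.W263.BSD (GoodPrime pointCount)

/-- The probability, for the distribution `μ` on the words of `k` digits (the integers `v < b ^ k`), that the word begins with
the `i` digits of `u < b ^ i`. -/
noncomputable def begins (b k : ℕ) (μ : ℕ → ℝ) (i u : ℕ) : ℝ := ∑ w ∈ range (b ^ (k - i)), μ (u * b ^ (k - i) + w)

/-- `p` is a probability on the words of `k` digits in base `b`, read as integers `v < b ^ k`. There is another probability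
`μ` with `p ≤ k ^ T μ` such that after every beginning `u` two different blocks `a`, `a'` of `L` digits can be exchanged:
`p (u a w) = r p (u a' w)` for all endings `w`, with a factor `r` between `η` and `1 / η` which does not depend on `w`; and
given the beginning `u`, each of the two blocks comes next with a probability of at least `η` in the distribution `μ`.
(For `T = 0` one has `μ = p`. For the uniform distribution on a set of words `r` is `1`.) -/
structure Exchangeable (b L : ℕ) (η : ℝ) (T k : ℕ) (p : ℕ → ℝ) : Prop where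
  nonneg : ∀ v, 0 ≤ p v
  sum : ∑ v ∈ range (b ^ k), p v = 1
  dominated : ∃ μ : ℕ → ℝ, (∀ v, 0 ≤ μ v) ∧ ∑ v ∈ range (b ^ k), μ v = 1 ∧ (∀ v < b ^ k, p v ≤ (k : ℝ) ^ T * μ v) ∧
    ∀ i u : ℕ, i + L ≤ k → u < b ^ i → ∃ (a a' : ℕ) (r : ℝ), a < a' ∧ a' < b ^ L ∧ η ≤ r ∧ η * r ≤ 1 ∧
      (∀ w < b ^ (k - (i + L)), p ((b ^ L * u + a) * b ^ (k - (i + L)) + w) = r * p ((b ^ L * u + a') * b ^ (k - (i + L)) + w)) ∧
      η * begins b k μ i u ≤ begins b k μ (i + L) (b ^ L * u + a) ∧
      η * begins b k μ i u ≤ begins b k μ (i + L) (b ^ L * u + a')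

lemma begins_sum (b k : ℕ) (μ : ℕ → ℝ) (i u : ℕ) (hi : i < k) :
    ∑ a ∈ range b, begins b k μ (i + 1) (b * u + a) = begins b k μ i u := by
  unfold begins
  obtain ⟨n, hn⟩ : ∃ n, k - i = n + 1 := ⟨k - i - 1, by omega⟩
  have h1 : k - (i + 1) = n := by omega
  rw [h1, hn, pow_succ, mul_comm (b ^ n) b, Pool.Agent.N625.PT.sum_blocks b (b ^ n)]
  apply sum_congr rfl
  intro a _
  apply sum_congr rfl
  intro w _
  congr 1
  ring

lemma flex_of {b L T k : ℕ} {η : ℝ} {p : ℕ → ℝ} (hp : Exchangeable b L η T k p) : Pool.Agent.N625.PT.Flex b L η T k p := by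
  obtain ⟨h0, h1, μ, m0, m1, m2, m3⟩ := hp
  have hT : (0 : ℝ) ≤ (k : ℝ) ^ T := by positivity
  have hb0 : ∀ i u, 0 ≤ begins b k μ i u := fun i u => sum_nonneg fun w _ => m0 _
  refine ⟨h0, h1, fun i u => (k : ℝ) ^ T * begins b k μ i u, fun i u => mul_nonneg hT (hb0 i u), ?_, ?_, ?_, ?_⟩
  · intro v hv
    refine (m2 v hv).trans (le_of_eq ?_)
    unfold begins
    simp
  · intro i hi u _
    simp only
    rw [← mul_sum, begins_sum b k μ i u hi]
  · simp only
    have : begins b k μ 0 0 = 1 := by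
      unfold begins
      simpa using m1
    rw [this, mul_one]
  · intro i u hi hu
    obtain ⟨a, a', r, q1, q2, q3, q4, q5, q6, q7⟩ := m3 i u hi hu
    refine ⟨a, a', r, q1, q2, q3, q4, q5, ?_, ?_⟩
    · simp only
      calc η * ((k : ℝ) ^ T * begins b k μ i u) = (k : ℝ) ^ T * (η * begins b k μ i u) := by ring
        _ ≤ _ := mul_le_mul_of_nonneg_left q6 hT
    · simp only
      calc η * ((k : ℝ) ^ T * begins b k μ i u) = (k : ℝ) ^ T * (η * begins b k μ i u) := by ring
        _ ≤ _ := mul_le_mul_of_nonneg_left q7 hT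

/-- `p` is a prime of good reduction of the curve `E : y² = x³ + a x + n` (a prime which does not divide the discriminant
`-16 (4 a³ + 27 n²)`) and `a_p(E) = p - N_p = r`, where `N_p` is the number of the affine points modulo `p`. -/
def Trace (r : ℤ) (p : ℕ) (a n : ℤ) : Prop := GoodPrime a n p ∧ (p : ℤ) - pointCount a n p = r

open Classical in
/-- The number `π_E(x, r)` of the primes `p ≤ x` of good reduction of `E : y² = x³ + a x + n` with `a_p(E) = r`. -/
noncomputable def piE (a n r : ℤ) (x : ℕ) : ℕ := ((range (x + 1)).filter (fun p => Trace r p a n)).card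

open Classical in
/-- The sum over the primes `p ≤ x` of the proportion of the pairs `(α, ν)` of residues modulo `p` for which `p` is a prime of
good reduction of `y² = x³ + α x + ν` with trace `r`. -/
noncomputable def model (r : ℤ) (x : ℕ) : ℝ :=
  ∑ p ∈ (range (x + 1)).filter Nat.Prime,
    (((range p ×ˢ range p).filter (fun z : ℕ × ℕ => Trace r p z.1 z.2)).card : ℝ) / (p : ℝ) ^ 2

/-- For all integers `|r| ≤ x ^ (δ / 4)` the number of the primes `p ≤ x` of good reduction of `E : y² = x³ + a x + n` with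
`a_p(E) = r` differs from `model r x` by at most `3 x ^ δ` times the square root of `model r (4 x)` (or of `1`). -/
def Good (δ : ℝ) (x : ℕ) (a n : ℤ) : Prop := ∀ r : ℤ, |(r : ℝ)| ≤ (x : ℝ) ^ (δ / 4) →
  |(piE a n r x : ℝ) - model r x| ≤ 3 * √(max 1 (model r (4 * x))) * (x : ℝ) ^ δ

lemma piE_eq (a n r : ℤ) (x : ℕ) : piE a n r x = cntR (Trace r) a n x := by
  classical
  unfold piE cntR
  congr 1
  ext p
  simp only [mem_filter, mem_range, mem_pri]
  constructor
  · rintro ⟨h1, h2⟩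
    exact ⟨⟨by omega, h2.1.1⟩, h2⟩
  · rintro ⟨h1, h2⟩
    exact ⟨by omega, h2⟩

lemma model_eq (r : ℤ) (x : ℕ) : model r x = ∑ p ∈ pri x, dens2 (Trace r) p := by
  classical
  have e : (range (x + 1)).filter Nat.Prime = pri x := by
    unfold pri
    congr!
  unfold model dens2
  rw [e]

lemma trace_per (r : ℤ) (p : ℕ) (_ : p.Prime) (a a' n n' : ℤ) (h : (p : ℤ) ∣ a - a') (h' : (p : ℤ) ∣ n - n') :
    Trace r p a n ↔ Trace r p a' n' := by
  have e1 : ((a : ℤ) : ZMod p) = ((a' : ℤ) : ZMod p) := by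
    rw [← sub_eq_zero, ← Int.cast_sub, ZMod.intCast_zmod_eq_zero_iff_dvd]
    exact h
  have e2 : ((n : ℤ) : ZMod p) = ((n' : ℤ) : ZMod p) := by
    rw [← sub_eq_zero, ← Int.cast_sub, ZMod.intCast_zmod_eq_zero_iff_dvd]
    exact h'
  have h1 : GoodPrime a n p ↔ GoodPrime a' n' p := by
    unfold GoodPrime
    rw [← ZMod.intCast_zmod_eq_zero_iff_dvd, ← ZMod.intCast_zmod_eq_zero_iff_dvd]
    push_cast
    rw [e1, e2]
  have h2 : pointCount a n p = pointCount a' n' p := by
    unfold pointCount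
    rw [e1, e2]
  unfold Trace
  rw [h1, h2]

lemma trace_uniq (p : ℕ) (a n r r' : ℤ) (h : Trace r p a n) (h' : Trace r' p a n) : r = r' := by
  rw [← h.2, ← h'.2]

/-- a curve which is not good -/
lemma bad_of {δ : ℝ} {x : ℕ} {a n : ℤ} (h : ¬ Good δ x a n) : ∃ r : ℤ, |(r : ℝ)| ≤ (x : ℝ) ^ (δ / 2 / 2) ∧
    3 * √(max 1 (∑ p ∈ pri (4 * x), dens2 (Trace r) p)) * (x : ℝ) ^ (2 * (δ / 2)) <
      |(cntR (Trace r) a n x : ℝ) - ∑ p ∈ pri x, dens2 (Trace r) p| := by
  unfold Good at h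
  push Not at h
  obtain ⟨r, h1, h2⟩ := h
  have e1 : δ / 2 / 2 = δ / 4 := by ring
  have e2 : 2 * (δ / 2) = δ := by ring
  refine ⟨r, by rw [e1]; exact h1, ?_⟩
  rw [e2, ← model_eq, ← model_eq, ← piE_eq]
  exact h2

/-- the change of the range -/
lemma range_two {x W N : ℕ} (hx : 2 ≤ x) (h : x ^ (2 * W) ≤ N) : x ^ W ≤ N ∧ (2 * x) ^ W ≤ N := by
  have h1 : (2 * x) ^ W ≤ x ^ (2 * W) := by
    rw [pow_mul]
    exact Nat.pow_le_pow_left (by nlinarith) W
  have h2 : x ^ W ≤ (2 * x) ^ W := Nat.pow_le_pow_left (by omega) W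
  exact ⟨h2.trans (h1.trans h), h1.trans h⟩

open Classical in
/-- Let `b ≥ 2`, `L ≥ 1`, `0 < η ≤ 1`, `T₀` and `0 < δ ≤ 1` be fixed. There is `W` such that for `κ₁, κ₂ ≠ 0` and all
sufficiently large `X` the following holds for all `k₁`, `k₂`, all probabilities `w₁`, `w₂` on the words of `k₁` and `k₂` digits
in which blocks of `L` digits can be exchanged (`Exchangeable b L η T₀ k w`) and all `c₁`, `c₂`.

If `u < b ^ k₁` and `v < b ^ k₂` are independent random integers with the distributions `w₁` and `w₂` then with a probability of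
at least `1 - 4 (k₁ ^ T₀ + k₂ ^ T₀) X ^ (- δ / 4)` the curve `E : y² = x³ + a x + n` with `a = c₁ + κ₁ u` and `n = c₂ + κ₂ v` has the
following property for ALL `x ≥ X` with `x ^ W ≤ b ^ k₁` and `x ^ W ≤ b ^ k₂` and ALL integers `|r| ≤ x ^ (δ / 4)`: the number
`π_E(x, r)` of the primes `p ≤ x` with `a_p(E) = r` is `M(x)` up to an error of at most `3 x ^ δ (max 1 M(4 x)) ^ (1 / 2)`, where
`M(x)` is the sum over `p ≤ x` of the proportion of the pairs of residues modulo `p` for which the curve has the trace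
`r`. -/
theorem result (b L : ℕ) (hb : 2 ≤ b) (hL : 1 ≤ L) (η : ℝ) (hη0 : 0 < η) (hη1 : η ≤ 1) (T₀ : ℕ) (δ : ℝ) (hδ : 0 < δ)
    (hδ1 : δ ≤ 1) : ∃ W : ℕ, 1 ≤ W ∧ ∀ κ₁ κ₂ : ℤ, κ₁ ≠ 0 → κ₂ ≠ 0 → ∃ X₀ : ℕ, ∀ X : ℕ, X₀ ≤ X →
    ∀ (k₁ k₂ : ℕ) (w₁ w₂ : ℕ → ℝ), Exchangeable b L η T₀ k₁ w₁ → Exchangeable b L η T₀ k₂ w₂ → ∀ c₁ c₂ : ℤ,
    ∑ z ∈ range (b ^ k₁) ×ˢ range (b ^ k₂), (if ∀ x : ℕ, X ≤ x → x ^ W ≤ b ^ k₁ → x ^ W ≤ b ^ k₂ →
      Good δ x (c₁ + κ₁ * (z.1 : ℕ)) (c₂ + κ₂ * (z.2 : ℕ)) then 0 else w₁ z.1 * w₂ z.2) ≤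
      4 * (((k₁ : ℝ) ^ T₀ + (k₂ : ℝ) ^ T₀) * (X : ℝ) ^ (-(δ / 4))) := by
  obtain ⟨W, hW, H⟩ := fineAt_flex (δ / 2) (by linarith) (by linarith) b L hb hL η hη0 hη1 T₀
  refine ⟨2 * W, by omega, fun κ₁ κ₂ hκ₁ hκ₂ => ?_⟩
  obtain ⟨X₁, J₁⟩ := H κ₁ hκ₁
  obtain ⟨X₂, J₂⟩ := H κ₂ hκ₂
  refine ⟨X₁ + X₂ + 2, fun X hX k₁ k₂ w₁ w₂ hw₁ hw₂ c₁ c₂ => ?_⟩
  have h1 := pairs_trace (Ω₁ := range (b ^ k₁)) (Ω₂ := range (b ^ k₂)) (w₁ := w₁) (w₂ := w₂)
    (fun i _ => hw₁.nonneg i) (fun i _ => hw₂.nonneg i) hw₁.sum.le hw₂.sum.le (by linarith : 0 < δ / 2) (by linarith)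
    (by omega : 1 ≤ X) (by positivity) (J₁ X (by omega) k₁ w₁ (flex_of hw₁) c₁) (J₂ X (by omega) k₂ w₂ (flex_of hw₂) c₂)
    Trace trace_per trace_uniq
    ((range (b ^ k₁) ×ˢ range (b ^ k₂)).filter (fun z : ℕ × ℕ => ¬ ∀ x : ℕ, X ≤ x → x ^ (2 * W) ≤ b ^ k₁ →
      x ^ (2 * W) ≤ b ^ k₂ → Good δ x (c₁ + κ₁ * (z.1 : ℕ)) (c₂ + κ₂ * (z.2 : ℕ)))) (filter_subset _ _) (by
      intro z hz
      have h2 := (mem_filter.1 hz).2
      push Not at h2
      obtain ⟨x, hXx, h3, h4, h5⟩ := h2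
      have hx2 : 2 ≤ x := by omega
      exact ⟨x, hXx, (range_two hx2 h3).1, (range_two hx2 h3).2, (range_two hx2 h4).1, bad_of h5⟩)
  have e : 2 * ((k₁ : ℝ) ^ T₀ * (2 * (X : ℝ) ^ (-(δ / 2 / 2))) + (k₂ : ℝ) ^ T₀ * (2 * (X : ℝ) ^ (-(δ / 2 / 2)))) =
      4 * (((k₁ : ℝ) ^ T₀ + (k₂ : ℝ) ^ T₀) * (X : ℝ) ^ (-(δ / 4))) := by
    have e : δ / 2 / 2 = δ / 4 := by ring
    rw [e]
    ring
  rw [← e]
  refine le_trans (le_of_eq ?_) h1
  rw [sum_filter]
  apply sum_congr rfl
  intro z _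
  split_ifs <;> simp_all

end Pool.Agent.Results.MP_631487_nt.ExchangeablePairs
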