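import Pool.Agent.N794.CG.Pairs
import Pool.Agent.N193.PS.Gp
import Pool.Agent.R459.Bsd4

/-!
# The primes with a prescribed Fourier coefficient `a_p = r`, for almost all curves whose coefficients are both values of functions of non-integral index

From Mathlib: `ContDiffAt ℝ ⊤`: infinitely differentiable at a point; `iteratedDeriv m f`: the derivative of order `m`;
`⌊y⌋₊`: the integer part of `y`, and `0` for `y < 0`.

By the modularity theorem and the theory of new forms (not used here) these curves are those of the forms of the question, and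
`a_p(E)` is the Fourier coefficient. By the class number formula of Deuring `model r x` is, up to bounded factors of the terms,
the sum of `H(4 p - r²) / (2 p)` over the primes `p ≤ x`, where `H` is the class number of Hurwitz; so this is the count
predicted by Lang and Trotter on average over all curves, of order `x ^ (1 / 2) / log x`.

Method: the characteristic function of the integer part of `f n` is small at all frequencies whose digits are not close to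
the digits of an integer (helper193, `Pool.Agent.N193.PS`); the passage from there to sums over primes of functions of
residues, for almost all members, is from the starting library (`Pool.Agent.R459.Eq`).
-/

set_option autoImplicit false

namespace Pool.Agent.Results.MP_631487_nt.NonIntegralOrderPairs

open Finset Filter Pool.Agent.R459.Eq Pool.Agent.N794.CG
open Pool.Agent.W263.BSD (GoodPrime pointCount)

/-- `f` is smoothly varying of index `c`: it is infinitely differentiable and positive for large arguments, and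
`t ^ m f⁽ᵐ⁾(t) / f(t) → c (c - 1) ... (c - m + 1)` for every `m`. -/
def SmoothlyVarying (c : ℝ) (f : ℝ → ℝ) : Prop :=
  (∃ t₀ : ℝ, ∀ t > t₀, ContDiffAt ℝ ((⊤ : ℕ∞) : WithTop ℕ∞) f t ∧ 0 < f t) ∧
  ∀ m : ℕ, Tendsto (fun t => t ^ m * iteratedDeriv m f t / f t) atTop (nhds (∏ i ∈ range m, (c - i)))

/-- `p` is a prime of good reduction of the curve `E : y² = x³ + a x + n` (a prime which does not divide the discriminant
`-16 (4 a³ + 27 n²)`) and `a_p(E) = p - N_p = r`, where `N_p` is the number of the affine points modulo `p`. -/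
def Trace (r : ℤ) (p : ℕ) (a n : ℤ) : Prop := GoodPrime a n p ∧ (p : ℤ) - pointCount a n p = r

open Classical in
/-- The number `π_E(x, r)` of the primes `p ≤ x` of good reduction of `E : y² = x³ + a x + n` with `a_p(E) = r`. -/
noncomputable def piE (a n r : ℤ) (x : ℕ) : ℕ := ((range (x + 1)).filter (fun p => Trace r p a n)).card

open Classical in
/-- The sum over the primes `p ≤ x` of the proportion of the pairs `(α, ν)` of residues modulo `p` for which `p` is a prime of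
good reduction of `y² = x³ + α x + ν` with trace `r`. -/
noncomputable def model (r : ℤ) (x : ℕ) : ℝ :=
  ∑ p ∈ (range (x + 1)).filter Nat.Prime,
    (((range p ×ˢ range p).filter (fun z : ℕ × ℕ => Trace r p z.1 z.2)).card : ℝ) / (p : ℝ) ^ 2

/-- For all integers `|r| ≤ x ^ (δ / 4)` the number of the primes `p ≤ x` of good reduction of `E : y² = x³ + a x + n` with
`a_p(E) = r` differs from `model r x` by at most `3 x ^ δ` times the square root of `model r (4 x)` (or of `1`). -/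
def Good (δ : ℝ) (x : ℕ) (a n : ℤ) : Prop := ∀ r : ℤ, |(r : ℝ)| ≤ (x : ℝ) ^ (δ / 4) →
  |(piE a n r x : ℝ) - model r x| ≤ 3 * √(max 1 (model r (4 * x))) * (x : ℝ) ^ δ

lemma piE_eq (a n r : ℤ) (x : ℕ) : piE a n r x = cntR (Trace r) a n x := by
  classical
  unfold piE cntR
  congr 1
  ext p
  simp only [mem_filter, mem_range, mem_pri]
  constructor
  · rintro ⟨h1, h2⟩
    exact ⟨⟨by omega, h2.1.1⟩, h2⟩
  · rintro ⟨h1, h2⟩
    exact ⟨by omega, h2⟩

lemma model_eq (r : ℤ) (x : ℕ) : model r x = ∑ p ∈ pri x, dens2 (Trace r) p := by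
  classical
  have e : (range (x + 1)).filter Nat.Prime = pri x := by
    unfold pri
    congr!
  unfold model dens2
  rw [e]

lemma trace_per (r : ℤ) (p : ℕ) (_ : p.Prime) (a a' n n' : ℤ) (h : (p : ℤ) ∣ a - a') (h' : (p : ℤ) ∣ n - n') :
    Trace r p a n ↔ Trace r p a' n' := by
  have e1 : ((a : ℤ) : ZMod p) = ((a' : ℤ) : ZMod p) := by
    rw [← sub_eq_zero, ← Int.cast_sub, ZMod.intCast_zmod_eq_zero_iff_dvd]
    exact h
  have e2 : ((n : ℤ) : ZMod p) = ((n' : ℤ) : ZMod p) := by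
    rw [← sub_eq_zero, ← Int.cast_sub, ZMod.intCast_zmod_eq_zero_iff_dvd]
    exact h'
  have h1 : GoodPrime a n p ↔ GoodPrime a' n' p := by
    unfold GoodPrime
    rw [← ZMod.intCast_zmod_eq_zero_iff_dvd, ← ZMod.intCast_zmod_eq_zero_iff_dvd]
    push_cast
    rw [e1, e2]
  have h2 : pointCount a n p = pointCount a' n' p := by
    unfold pointCount
    rw [e1, e2]
  unfold Trace
  rw [h1, h2]

lemma trace_uniq (p : ℕ) (a n r r' : ℤ) (h : Trace r p a n) (h' : Trace r' p a n) : r = r' := by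
  rw [← h.2, ← h'.2]

/-- a curve which is not good -/
lemma bad_of {δ : ℝ} {x : ℕ} {a n : ℤ} (h : ¬ Good δ x a n) : ∃ r : ℤ, |(r : ℝ)| ≤ (x : ℝ) ^ (δ / 2 / 2) ∧
    3 * √(max 1 (∑ p ∈ pri (4 * x), dens2 (Trace r) p)) * (x : ℝ) ^ (2 * (δ / 2)) <
      |(cntR (Trace r) a n x : ℝ) - ∑ p ∈ pri x, dens2 (Trace r) p| := by
  unfold Good at h
  push Not at h
  obtain ⟨r, h1, h2⟩ := h
  have e1 : δ / 2 / 2 = δ / 4 := by ring
  have e2 : 2 * (δ / 2) = δ := by ring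
  refine ⟨r, by rw [e1]; exact h1, ?_⟩
  rw [e2, ← model_eq, ← model_eq, ← piE_eq]
  exact h2

/-- the change of the range -/
lemma range_two {x W N : ℕ} (hx : 2 ≤ x) (h : x ^ (2 * W) ≤ N) : x ^ W ≤ N ∧ (2 * x) ^ W ≤ N := by
  have h1 : (2 * x) ^ W ≤ x ^ (2 * W) := by
    rw [pow_mul]
    exact Nat.pow_le_pow_left (by nlinarith) W
  have h2 : x ^ W ≤ (2 * x) ^ W := Nat.pow_le_pow_left (by omega) W
  exact ⟨h2.trans (h1.trans h), h1.trans h⟩

open Classical in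
/-- **(1)** Let `f₁`, `f₂` be smoothly varying of indices `c₁, c₂ > 0` which are not integers, and let `0 < δ ≤ 1`. There is
`W` such that for `κ₁, κ₂ ≠ 0` and all sufficiently large `X` the following holds for all `M₁`, `M₂` and all integers `e₁`, `e₂`.

For almost all the pairs `(u, v)` of integers `1 ≤ u ≤ M₁`, `1 ≤ v ≤ M₂`, up to a proportion of at most `8 X ^ (- δ / 4)`, the
curve `E : y² = x³ + a x + n` with `a = e₁ + κ₁ ⌊f₁ u⌋` and `n = e₂ + κ₂ ⌊f₂ v⌋` has the following property for ALL `x ≥ X` with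
`x ^ W ≤ f₁ M₁` and `x ^ W ≤ f₂ M₂` and ALL integers `|r| ≤ x ^ (δ / 4)`: the number `π_E(x, r)` of the primes `p ≤ x` with
`a_p(E) = r` is `M(x)` up to an error of at most `3 x ^ δ (max 1 M(4 x)) ^ (1 / 2)`, where `M(x)` is the sum over `p ≤ x` of the
proportion of the pairs of residues modulo `p` for which the curve has the trace `r`. (The sequences have as few as
`N ^ (1 / c)` members up to `N`, and `c` is arbitrarily large.)

**(2)** Part (1) applies to all the functions `f t = ∑ a z t ^ z.1 (log t) ^ z.2` (finite sums) with a leading term `z₀`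
whose coefficient is positive and whose exponent `c = z₀.1` is positive and not an integer; for example to `n ^ c`. -/
theorem result :
    (∀ (c₁ c₂ : ℝ) (f₁ f₂ : ℝ → ℝ), 0 < c₁ → 0 < c₂ → (∀ m : ℕ, c₁ ≠ m) → (∀ m : ℕ, c₂ ≠ m) →
      SmoothlyVarying c₁ f₁ → SmoothlyVarying c₂ f₂ → ∀ δ : ℝ, 0 < δ → δ ≤ 1 → ∃ W : ℕ, 1 ≤ W ∧
      ∀ κ₁ κ₂ : ℤ, κ₁ ≠ 0 → κ₂ ≠ 0 → ∃ X₀ : ℕ, ∀ X : ℕ, X₀ ≤ X → ∀ (M₁ M₂ : ℕ) (e₁ e₂ : ℤ),
      (((Icc 1 M₁ ×ˢ Icc 1 M₂).filter (fun z : ℕ × ℕ => ¬ ∀ x : ℕ, X ≤ x → (x : ℝ) ^ W ≤ f₁ M₁ → (x : ℝ) ^ W ≤ f₂ M₂ →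
        Good δ x (e₁ + κ₁ * (⌊f₁ z.1⌋₊ : ℕ)) (e₂ + κ₂ * (⌊f₂ z.2⌋₊ : ℕ)))).card : ℝ) ≤
        8 * (X : ℝ) ^ (-(δ / 4)) * ((M₁ : ℝ) * M₂)) ∧
    (∀ (F : Finset (ℝ × ℝ)) (a : ℝ × ℝ → ℝ) (z₀ : ℝ × ℝ), z₀ ∈ F → 0 < a z₀ →
      (∀ z ∈ F, z ≠ z₀ → z.1 < z₀.1 ∨ z.1 = z₀.1 ∧ z.2 < z₀.2) →
      SmoothlyVarying z₀.1 (fun t => ∑ z ∈ F, a z * t ^ z.1 * Real.log t ^ z.2)) := by
  refine ⟨?_, fun F a z₀ h1 h2 h3 => Pool.Agent.N193.PS.gp_sv F a z₀ h1 h2 h3⟩
  intro c₁ c₂ f₁ f₂ hc₁ hc₂ hn₁ hn₂ hsv₁ hsv₂ δ hδ hδ1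
  obtain ⟨W₁, hW₁, H₁⟩ := eng_sv (fun X => by positivity) (eng_fine (δ / 2) (by linarith) (by linarith)) c₁ f₁ hc₁ hn₁ hsv₁
  obtain ⟨W₂, hW₂, H₂⟩ := eng_sv (fun X => by positivity) (eng_fine (δ / 2) (by linarith) (by linarith)) c₂ f₂ hc₂ hn₂ hsv₂
  refine ⟨2 * (W₁ + W₂), by omega, fun κ₁ κ₂ hκ₁ hκ₂ => ?_⟩
  obtain ⟨X₁, J₁⟩ := H₁ κ₁ hκ₁
  obtain ⟨X₂, J₂⟩ := H₂ κ₂ hκ₂
  refine ⟨X₁ + X₂ + 2, fun X hX M₁ M₂ e₁ e₂ => ?_⟩
  have hone : ∀ M : ℕ, ∑ _i ∈ Icc 1 M, 1 / ((Icc 1 M).card : ℝ) ≤ 1 := by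
    intro M
    rw [sum_const, nsmul_eq_mul, mul_one_div]
    exact div_self_le_one _
  have hcard : ∀ M : ℕ, (Icc 1 M).card = M := fun M => by rw [Nat.card_Icc, Nat.add_sub_cancel]
  have F₁ : FineAt (δ / 2) X (fun x => (x : ℝ) ^ W₁ ≤ f₁ M₁) (2 * (X : ℝ) ^ (-(δ / 2 / 2))) (Icc 1 M₁)
      (fun _ => 1 / ((Icc 1 M₁).card : ℝ)) (fun u => e₁ + κ₁ * (⌊f₁ u⌋₊ : ℕ)) := by
    rw [hcard]
    exact fun s => J₁ X (by omega) M₁ e₁ s
  have F₂ : FineAt (δ / 2) X (fun x => (x : ℝ) ^ W₂ ≤ f₂ M₂) (2 * (X : ℝ) ^ (-(δ / 2 / 2))) (Icc 1 M₂)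
      (fun _ => 1 / ((Icc 1 M₂).card : ℝ)) (fun u => e₂ + κ₂ * (⌊f₂ u⌋₊ : ℕ)) := by
    rw [hcard]
    exact fun s => J₂ X (by omega) M₂ e₂ s
  have h1 := pairs_card (Icc 1 M₁) (Icc 1 M₂) _ (filter_subset _ _) _
    (pairs_trace (Ω₁ := Icc 1 M₁) (Ω₂ := Icc 1 M₂) (w₁ := fun _ => 1 / ((Icc 1 M₁).card : ℝ))
      (w₂ := fun _ => 1 / ((Icc 1 M₂).card : ℝ))
      (fun _ _ => by positivity) (fun _ _ => by positivity) (hone _) (hone _) (by linarith : 0 < δ / 2) (by linarith)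
      (by omega : 1 ≤ X) (by positivity) F₁ F₂ Trace trace_per trace_uniq
      ((Icc 1 M₁ ×ˢ Icc 1 M₂).filter (fun z : ℕ × ℕ => ¬ ∀ x : ℕ, X ≤ x → (x : ℝ) ^ (2 * (W₁ + W₂)) ≤ f₁ M₁ →
        (x : ℝ) ^ (2 * (W₁ + W₂)) ≤ f₂ M₂ →
        Good δ x (e₁ + κ₁ * (⌊f₁ z.1⌋₊ : ℕ)) (e₂ + κ₂ * (⌊f₂ z.2⌋₊ : ℕ)))) (filter_subset _ _) (by
        intro z hz
        have h2 := (mem_filter.1 hz).2
        push Not at h2
        obtain ⟨x, hXx, h3, h4, h5⟩ := h2
        have hx2 : 2 ≤ x := by omega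
        have key : ∀ (W' : ℕ) (Z : ℝ), W' ≤ W₁ + W₂ → (x : ℝ) ^ (2 * (W₁ + W₂)) ≤ Z →
            (x : ℝ) ^ W' ≤ Z ∧ ((2 * x : ℕ) : ℝ) ^ W' ≤ Z := by
          intro W' Z hW' hZ
          have hxr : (0 : ℝ) ≤ (x : ℝ) ^ (2 * (W₁ + W₂)) := by positivity
          have h6 : x ^ (2 * W') ≤ ⌊Z⌋₊ := by
            refine le_trans (Nat.pow_le_pow_right (by omega) (by omega : 2 * W' ≤ 2 * (W₁ + W₂))) ?_
            apply Nat.le_floor
            push_cast
            exact hZ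
          have h7 := range_two hx2 h6
          have h8 : ((⌊Z⌋₊ : ℕ) : ℝ) ≤ Z := Nat.floor_le (hxr.trans hZ)
          exact ⟨le_trans (by exact_mod_cast h7.1) h8, le_trans (by exact_mod_cast h7.2) h8⟩
        exact ⟨x, hXx, (key W₁ _ (by omega) h3).1, (key W₁ _ (by omega) h3).2, (key W₂ _ (by omega) h4).1, bad_of h5⟩))
  rw [hcard, hcard] at h1
  refine h1.trans (le_of_eq ?_)
  have e : δ / 2 / 2 = δ / 4 := by ring
  rw [e]
  ring

end Pool.Agent.Results.MP_631487_nt.NonIntegralOrderPairs
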