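import Pool.Agent.N794.CG.Pairs
import Pool.Agent.R459.Bsd4
import Pool.Agent.N384.MQ.Gen

/-!
# The primes with a prescribed Fourier coefficient `a_p = r`, for almost all curves with both coefficients in families of
residues with small Fourier coefficients

From Mathlib: `ZMod.stdAddChar`: the additive character `j ↦ exp (2 π i j / q)` of the integers modulo `q`; `ZMod.val`: the
least residue.

By the modularity theorem and the theory of new forms (not used here) these curves are those of the forms of the question, and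
`a_p(E)` is the Fourier coefficient. By the class number formula of Deuring `model r x` is, up to bounded factors of the terms,
the sum of `H(4 p - r²) / (2 p)` over the primes `p ≤ x`, where `H` is the class number of Hurwitz; so this is the count
predicted by Lang and Trotter on average over all curves, of order `x ^ (1 / 2) / log x`.

Method: a family of residues modulo `q` with small Fourier coefficients has small exponential sums at all real
frequencies which are not close to integers (helper384, `Pool.Agent.N384.MQ`; the examples are from there); the passage to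
sums over primes of functions of residues, for almost all members, is from the starting library (`Pool.Agent.R459.Eq`).
-/

set_option autoImplicit false

namespace Pool.Agent.Results.MP_631487_nt.ResiduePairs

open Finset Filter Pool.Agent.R459.Eq Pool.Agent.N794.CG
open Pool.Agent.W263.BSD (GoodPrime pointCount)

/-- The Fourier coefficients of the residues `y i`, `i ∈ s`, modulo `q` at the nonzero frequencies are at most
`η` times the number of the residues: `|∑ i ∈ s, e(h y_i / q)| ≤ η |s|` for all `h ≠ 0` modulo `q`. -/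
def Flat {ι : Type} (q : ℕ) [NeZero q] (η : ℝ) (s : Finset ι) (y : ι → ZMod q) : Prop :=
  ∀ h : ZMod q, h ≠ 0 → ‖∑ i ∈ s, (ZMod.stdAddChar (h * y i) : ℂ)‖ ≤ η * s.card

/-- `p` is a prime of good reduction of the curve `E : y² = x³ + a x + n` (a prime which does not divide the discriminant
`-16 (4 a³ + 27 n²)`) and `a_p(E) = p - N_p = r`, where `N_p` is the number of the affine points modulo `p`. -/
def Trace (r : ℤ) (p : ℕ) (a n : ℤ) : Prop := GoodPrime a n p ∧ (p : ℤ) - pointCount a n p = r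

open Classical in
/-- The number `π_E(x, r)` of the primes `p ≤ x` of good reduction of `E : y² = x³ + a x + n` with `a_p(E) = r`. -/
noncomputable def piE (a n r : ℤ) (x : ℕ) : ℕ := ((range (x + 1)).filter (fun p => Trace r p a n)).card

open Classical in
/-- The sum over the primes `p ≤ x` of the proportion of the pairs `(α, ν)` of residues modulo `p` for which `p` is a prime of
good reduction of `y² = x³ + α x + ν` with trace `r`. -/
noncomputable def model (r : ℤ) (x : ℕ) : ℝ :=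
  ∑ p ∈ (range (x + 1)).filter Nat.Prime,
    (((range p ×ˢ range p).filter (fun z : ℕ × ℕ => Trace r p z.1 z.2)).card : ℝ) / (p : ℝ) ^ 2

/-- For all integers `|r| ≤ x ^ (δ / 4)` the number of the primes `p ≤ x` of good reduction of `E : y² = x³ + a x + n` with
`a_p(E) = r` differs from `model r x` by at most `3 x ^ δ` times the square root of `model r (4 x)` (or of `1`). -/
def Good (δ : ℝ) (x : ℕ) (a n : ℤ) : Prop := ∀ r : ℤ, |(r : ℝ)| ≤ (x : ℝ) ^ (δ / 4) →
  |(piE a n r x : ℝ) - model r x| ≤ 3 * √(max 1 (model r (4 * x))) * (x : ℝ) ^ δ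

lemma piE_eq (a n r : ℤ) (x : ℕ) : piE a n r x = cntR (Trace r) a n x := by
  classical
  unfold piE cntR
  congr 1
  ext p
  simp only [mem_filter, mem_range, mem_pri]
  constructor
  · rintro ⟨h1, h2⟩
    exact ⟨⟨by omega, h2.1.1⟩, h2⟩
  · rintro ⟨h1, h2⟩
    exact ⟨by omega, h2⟩

lemma model_eq (r : ℤ) (x : ℕ) : model r x = ∑ p ∈ pri x, dens2 (Trace r) p := by
  classical
  have e : (range (x + 1)).filter Nat.Prime = pri x := by
    unfold pri
    congr!
  unfold model dens2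
  rw [e]

lemma trace_per (r : ℤ) (p : ℕ) (_ : p.Prime) (a a' n n' : ℤ) (h : (p : ℤ) ∣ a - a') (h' : (p : ℤ) ∣ n - n') :
    Trace r p a n ↔ Trace r p a' n' := by
  have e1 : ((a : ℤ) : ZMod p) = ((a' : ℤ) : ZMod p) := by
    rw [← sub_eq_zero, ← Int.cast_sub, ZMod.intCast_zmod_eq_zero_iff_dvd]
    exact h
  have e2 : ((n : ℤ) : ZMod p) = ((n' : ℤ) : ZMod p) := by
    rw [← sub_eq_zero, ← Int.cast_sub, ZMod.intCast_zmod_eq_zero_iff_dvd]
    exact h'
  have h1 : GoodPrime a n p ↔ GoodPrime a' n' p := by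
    unfold GoodPrime
    rw [← ZMod.intCast_zmod_eq_zero_iff_dvd, ← ZMod.intCast_zmod_eq_zero_iff_dvd]
    push_cast
    rw [e1, e2]
  have h2 : pointCount a n p = pointCount a' n' p := by
    unfold pointCount
    rw [e1, e2]
  unfold Trace
  rw [h1, h2]

lemma trace_uniq (p : ℕ) (a n r r' : ℤ) (h : Trace r p a n) (h' : Trace r' p a n) : r = r' := by
  rw [← h.2, ← h'.2]

/-- a curve which is not good -/
lemma bad_of {δ : ℝ} {x : ℕ} {a n : ℤ} (h : ¬ Good δ x a n) : ∃ r : ℤ, |(r : ℝ)| ≤ (x : ℝ) ^ (δ / 2 / 2) ∧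
    3 * √(max 1 (∑ p ∈ pri (4 * x), dens2 (Trace r) p)) * (x : ℝ) ^ (2 * (δ / 2)) <
      |(cntR (Trace r) a n x : ℝ) - ∑ p ∈ pri x, dens2 (Trace r) p| := by
  unfold Good at h
  push Not at h
  obtain ⟨r, h1, h2⟩ := h
  have e1 : δ / 2 / 2 = δ / 4 := by ring
  have e2 : 2 * (δ / 2) = δ := by ring
  refine ⟨r, by rw [e1]; exact h1, ?_⟩
  rw [e2, ← model_eq, ← model_eq, ← piE_eq]
  exact h2

/-- the change of the range -/
lemma range_two {x W N : ℕ} (hx : 2 ≤ x) (h : x ^ (2 * W) ≤ N) : x ^ W ≤ N ∧ (2 * x) ^ W ≤ N := by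
  have h1 : (2 * x) ^ W ≤ x ^ (2 * W) := by
    rw [pow_mul]
    exact Nat.pow_le_pow_left (by nlinarith) W
  have h2 : x ^ W ≤ (2 * x) ^ W := Nat.pow_le_pow_left (by omega) W
  exact ⟨h2.trans (h1.trans h), h1.trans h⟩

open Classical in
/-- **(1)** Let `0 < δ ≤ 1`. There is `W` such that for `κ₁, κ₂ ≠ 0` and all sufficiently large `X` the following holds. For
`i = 1, 2` let `y_i z`, `z ∈ s_i`, be any finite family of residues modulo any `q_i` whose Fourier coefficients at the nonzero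
frequencies are at most `|s_i| / (Z (42 + 3 log q_i))`, where `0 < Z ≤ q_i`, and let `c₁`, `c₂` be any integers.

For almost all the pairs `(z₁, z₂)`, `z_i ∈ s_i`, up to a proportion of at most `8 X ^ (- δ / 4)`, the curve
`E : y² = x³ + a x + n` with `a = c₁ + κ₁ y₁(z₁)` and `n = c₂ + κ₂ y₂(z₂)` (with the least residues `0 ≤ y_i < q_i`) has the
following property for ALL `x ≥ X` with `x ^ W ≤ Z` and ALL integers `|r| ≤ x ^ (δ / 4)`: the number `π_E(x, r)` of the primes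
`p ≤ x` with `a_p(E) = r` is `M(x)` up to an error of at most `3 x ^ δ (max 1 M(4 x)) ^ (1 / 2)`, where `M(x)` is the sum over
`p ≤ x` of the proportion of the pairs of residues modulo `p` for which the curve has the trace `r`.

**(2)**, **(3)** Examples. All the Fourier coefficients at nonzero frequencies are at most `|s| / K` for the following families
of residues modulo primes `p` (all large primes in (2)), for ALL `K ≥ 1`:
* the quotients `j / r` of the integers `0 ≤ j < S` by the primes `r ≤ R`, if `K log ^ 4 p ≤ R < p` and `R ^ 2 ≤ S`; thus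
  (1) with `Z = log ^ B p` applies to such explicit sets with only `log ^ (3 B + 20) p` members;
* the cosets of all subgroups of the multiplicative group of an order of at least `5 p ^ (3/8) K ^ 3`;
* the residues `a b + g(a) + k(b)`, `a ∈ A`, `b ∈ B`, for arbitrary sets with `|A| |B| ≥ p K ^ 2` and arbitrary
  functions `g` and `k`;
* the values `f(n)`, `0 ≤ n < x`, of all integer polynomials of degree `d` whose leading coefficient is not divisible by
  `p`, if `p ≥ C K ^ C` and `x ^ d ≥ C K ^ C p`, where `C` depends on `d`.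
In the last three examples `K`, and thus `Z`, can be a power of `p`. -/
theorem result :
    (∀ δ : ℝ, 0 < δ → δ ≤ 1 → ∃ W : ℕ, 1 ≤ W ∧ ∀ κ₁ κ₂ : ℤ, κ₁ ≠ 0 → κ₂ ≠ 0 → ∃ X₀ : ℕ, ∀ X : ℕ, X₀ ≤ X →
      ∀ (ι₁ ι₂ : Type) (q₁ q₂ : ℕ) [NeZero q₁] [NeZero q₂] (s₁ : Finset ι₁) (s₂ : Finset ι₂) (y₁ : ι₁ → ZMod q₁)
      (y₂ : ι₂ → ZMod q₂) (Z : ℝ), 0 < Z → Z ≤ q₁ → Z ≤ q₂ →
      Flat q₁ (1 / (Z * (42 + 3 * Real.log q₁))) s₁ y₁ → Flat q₂ (1 / (Z * (42 + 3 * Real.log q₂))) s₂ y₂ → ∀ c₁ c₂ : ℤ,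
      (((s₁ ×ˢ s₂).filter (fun z : ι₁ × ι₂ => ¬ ∀ x : ℕ, X ≤ x → (x : ℝ) ^ W ≤ Z →
        Good δ x (c₁ + κ₁ * ((y₁ z.1).val : ℕ)) (c₂ + κ₂ * ((y₂ z.2).val : ℕ)))).card : ℝ) ≤
        8 * (X : ℝ) ^ (-(δ / 4)) * ((s₁.card : ℝ) * s₂.card)) ∧
    (∃ P₀ : ℕ, ∀ p : ℕ, P₀ ≤ p → ∀ [Fact p.Prime] (K : ℝ), 1 ≤ K →
      (∀ R S : ℕ, K * Real.log p ^ 4 ≤ R → R < p → R ^ 2 ≤ S →
        Flat p (1 / K) (((Icc 1 R).filter Nat.Prime) ×ˢ range S)
          (fun z => ((z.2 : ℕ) : ZMod p) * ((z.1 : ℕ) : ZMod p)⁻¹)) ∧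
      (∀ (H : Subgroup (ZMod p)ˣ) (s : Finset (ZMod p)ˣ), (∀ u, u ∈ s ↔ u ∈ H) →
        5 * (p : ℝ) ^ (3 / 8 : ℝ) * K ^ 3 ≤ s.card → ∀ x : ZMod p, x ≠ 0 → Flat p (1 / K) s (fun u => x * (u : ZMod p))) ∧
      (∀ (A B : Finset (ZMod p)) (g k : ZMod p → ZMod p), (p : ℝ) * K ^ 2 ≤ A.card * B.card →
        Flat p (1 / K) (A ×ˢ B) (fun z => z.1 * z.2 + g z.1 + k z.2))) ∧
    (∀ d : ℕ, 1 ≤ d → ∃ C : ℕ, ∀ p : ℕ, ∀ [Fact p.Prime] (f : Polynomial ℤ), f.natDegree = d →
      ¬ (p : ℤ) ∣ f.leadingCoeff → ∀ K : ℝ, 1 ≤ K → C * K ^ C ≤ p → ∀ x : ℕ, C * K ^ C * p ≤ (x : ℝ) ^ d →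
      Flat p (1 / K) (range x) (fun n => ((f.eval (n : ℤ) : ℤ) : ZMod p))) := by
  refine ⟨?_, ?_, fun d hd => ?_⟩
  · intro δ hδ hδ1
    obtain ⟨W, hW, H⟩ := eng_res (fun X => by positivity) (eng_fine (δ / 2) (by linarith) (by linarith))
    refine ⟨2 * W, by omega, fun κ₁ κ₂ hκ₁ hκ₂ => ?_⟩
    obtain ⟨X₁, J₁⟩ := H κ₁ hκ₁
    obtain ⟨X₂, J₂⟩ := H κ₂ hκ₂
    refine ⟨X₁ + X₂ + 2, fun X hX ι₁ ι₂ q₁ q₂ _ _ s₁ s₂ y₁ y₂ Z hZ hZ₁ hZ₂ hf₁ hf₂ c₁ c₂ => ?_⟩
    have hone : ∀ (ι : Type) (Ω : Finset ι), ∑ _i ∈ Ω, 1 / (Ω.card : ℝ) ≤ 1 := by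
      intro ι Ω
      rw [sum_const, nsmul_eq_mul, mul_one_div]
      exact div_self_le_one _
    have F₁ : FineAt (δ / 2) X (fun x => (x : ℝ) ^ W ≤ Z) (2 * (X : ℝ) ^ (-(δ / 2 / 2))) s₁
        (fun _ => 1 / (s₁.card : ℝ)) (fun i => c₁ + κ₁ * ((y₁ i).val : ℕ)) :=
      fun s => J₁ X (by omega) ι₁ q₁ s₁ y₁ Z hZ hZ₁ hf₁ c₁ s
    have F₂ : FineAt (δ / 2) X (fun x => (x : ℝ) ^ W ≤ Z) (2 * (X : ℝ) ^ (-(δ / 2 / 2))) s₂
        (fun _ => 1 / (s₂.card : ℝ)) (fun i => c₂ + κ₂ * ((y₂ i).val : ℕ)) :=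
      fun s => J₂ X (by omega) ι₂ q₂ s₂ y₂ Z hZ hZ₂ hf₂ c₂ s
    have h1 := pairs_card s₁ s₂ _ (filter_subset _ _) _
      (pairs_trace (Ω₁ := s₁) (Ω₂ := s₂) (w₁ := fun _ => 1 / (s₁.card : ℝ)) (w₂ := fun _ => 1 / (s₂.card : ℝ))
        (fun _ _ => by positivity) (fun _ _ => by positivity) (hone _ _) (hone _ _) (by linarith : 0 < δ / 2) (by linarith)
        (by omega : 1 ≤ X) (by positivity) F₁ F₂ Trace trace_per trace_uniq
        ((s₁ ×ˢ s₂).filter (fun z : ι₁ × ι₂ => ¬ ∀ x : ℕ, X ≤ x → (x : ℝ) ^ (2 * W) ≤ Z →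
          Good δ x (c₁ + κ₁ * ((y₁ z.1).val : ℕ)) (c₂ + κ₂ * ((y₂ z.2).val : ℕ)))) (filter_subset _ _) (by
          intro z hz
          have h2 := (mem_filter.1 hz).2
          push Not at h2
          obtain ⟨x, hXx, h3, h5⟩ := h2
          have hx2 : 2 ≤ x := by omega
          have h6 : x ^ (2 * W) ≤ ⌊Z⌋₊ := by
            apply Nat.le_floor
            push_cast
            exact h3
          have h7 := range_two hx2 h6
          have h8 : ((⌊Z⌋₊ : ℕ) : ℝ) ≤ Z := Nat.floor_le hZ.le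
          have h9 : (x : ℝ) ^ W ≤ Z := le_trans (by exact_mod_cast h7.1) h8
          have h10 : ((2 * x : ℕ) : ℝ) ^ W ≤ Z := le_trans (by exact_mod_cast h7.2) h8
          exact ⟨x, hXx, h9, h10, h9, bad_of h5⟩))
    refine h1.trans (le_of_eq ?_)
    have e : δ / 2 / 2 = δ / 4 := by ring
    rw [e]
    ring
  · obtain ⟨P₀, h0⟩ := Pool.Agent.N384.MQ.flatK_quot
    exact ⟨P₀, fun p hp _ K hK => ⟨fun R S => h0 p hp K hK R S,
      fun H s hs hc x hx => Pool.Agent.N384.MQ.flatK_coset p H s hs K hK hc x hx,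
      fun A B g k hAB => Pool.Agent.N384.MQ.flatK_prod p A B g k K hK hAB⟩⟩
  · exact Pool.Agent.N384.MQ.flatK_poly d hd

end Pool.Agent.Results.MP_631487_nt.ResiduePairs
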